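import Mathlib
import Pool.Agent.H53.ZF.Dis

set_option autoImplicit false
open Finset

/-! # T4: the mixed crossings have a positive probability, whatever has been revealed -/

namespace Pool.Agent.H47.ZF

open Pool.Agent.H75.Perc Pool.Agent.H75.TwoArm Pool.Agent.H53.ZF

/-- long side of a rectangle -/
def lng (ρ : Rc) : ℤ := if ρ.v then ρ.d - ρ.c else ρ.b - ρ.a

/-- short side of a rectangle -/
def sht (ρ : Rc) : ℤ := if ρ.v then ρ.b - ρ.a else ρ.d - ρ.c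

/-- The rectangle lies in the square `[lo, hi]²`, its sides are controlled. -/
structure Ok (s R u lo hi : ℤ) (ρ : Rc) : Prop where
  a : lo ≤ ρ.a
  b : ρ.b ≤ hi
  c : lo ≤ ρ.c
  d : ρ.d ≤ hi
  l0 : 0 ≤ lng ρ
  l1 : lng ρ ≤ 4 * R
  s1 : u ≤ sht ρ ∨ s ≤ sht ρ

lemma lng_rot (ρ : Rc) : lng ρ.rot = lng ρ := by
  obtain ⟨v, a, b, c, d⟩ := ρ
  cases v <;> simp [lng, Rc.rot] <;> ring

lemma sht_rot (ρ : Rc) : sht ρ.rot = sht ρ := by
  obtain ⟨v, a, b, c, d⟩ := ρ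
  cases v <;> simp [sht, Rc.rot] <;> ring

lemma lng_rotd (ρ : Rc) : lng ρ.rotd = lng ρ := by
  obtain ⟨v, a, b, c, d⟩ := ρ
  cases v <;> simp [lng, Rc.rotd]

lemma sht_rotd (ρ : Rc) : sht ρ.rotd = sht ρ := by
  obtain ⟨v, a, b, c, d⟩ := ρ
  cases v <;> simp [sht, Rc.rotd]

lemma Ok.rot {s R u hi : ℤ} {ρ : Rc} (h : Ok s R u (-hi) hi ρ) : Ok s R u (-hi) hi ρ.rot := by
  obtain ⟨h1, h2, h3, h4, h5, h6, h7⟩ := h
  refine ⟨?_, ?_, ?_, ?_, ?_, ?_, ?_⟩
  · change -hi ≤ -ρ.d; omega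
  · change -ρ.c ≤ hi; omega
  · exact h1
  · exact h2
  · rw [lng_rot]; exact h5
  · rw [lng_rot]; exact h6
  · rw [sht_rot]; exact h7

lemma Ok.rotd {s R u hi : ℤ} {ρ : Rc} (h : Ok s R u (1 - hi) hi ρ) :
    Ok s R u (1 - hi) hi ρ.rotd := by
  obtain ⟨h1, h2, h3, h4, h5, h6, h7⟩ := h
  refine ⟨?_, ?_, ?_, ?_, ?_, ?_, ?_⟩
  · change 1 - hi ≤ 1 - ρ.d; omega
  · change 1 - ρ.c ≤ hi; omega
  · exact h1
  · exact h2
  · rw [lng_rotd]; exact h5
  · rw [lng_rotd]; exact h6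
  · rw [sht_rotd]; exact h7

lemma Ok.rot_it {s R u hi : ℤ} (i : ℕ) : ∀ {ρ : Rc}, Ok s R u (-hi) hi ρ →
    Ok s R u (-hi) hi (Rc.rot^[i] ρ) := by
  induction i with
  | zero => intro ρ h; exact h
  | succ i ih => intro ρ h; rw [Function.iterate_succ_apply]; exact ih h.rot

lemma Ok.rotd_it {s R u hi : ℤ} (i : ℕ) : ∀ {ρ : Rc}, Ok s R u (1 - hi) hi ρ →
    Ok s R u (1 - hi) hi (Rc.rotd^[i] ρ) := by
  induction i with
  | zero => intro ρ h; exact h
  | succ i ih => intro ρ h; rw [Function.iterate_succ_apply]; exact ih h.rotd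

lemma cr_inc (ρ : Rc) : Inc ρ.cr := by
  intro ω ω' h h1
  unfold Rc.cr at h1 ⊢
  split_ifs at h1 ⊢
  · exact VC_inc _ _ _ _ _ _ h h1
  · exact HC_inc _ _ _ _ _ _ h h1

lemma cr_inter {ρ : Rc} {T : Finset (ℤ × ℤ)} (h : ρ.lb ⊆ T) {η : Finset (ℤ × ℤ)}
    (hη : ρ.cr η) : ρ.cr (η ∩ T) := by
  unfold Rc.cr at hη ⊢
  split_ifs at hη ⊢
  · exact CorrAux.VC_inter' h hη
  · exact CorrAux.HC_inter' h hη

lemma Pr_cr {ρ : Rc} {E : Finset (ℤ × ℤ)} (h : ρ.lb ⊆ E) : Pr E ρ.cr = fc (lng ρ) (sht ρ) := by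
  obtain ⟨v, a, b, c, d⟩ := ρ
  unfold Rc.lb at h
  cases v
  · simp only [lng, sht, Bool.false_eq_true, if_false]
    rw [← Pr_HC' h]
    exact Pr_congr fun ω _ => by simp [Rc.cr]
  · simp only [lng, sht, if_true]
    rw [← H75.TwoArm.Pr_VC h]
    exact Pr_congr fun ω _ => by simp [Rc.cr]

lemma Pr_cr_du {ρ : Rc} {E : Finset (ℤ × ℤ)}
    (h : ∀ e ∈ ρ.lb, ((e.1 - 1, e.2 - 1) : ℤ × ℤ) ∈ E) :
    Pr E (fun ω => ρ.cr (du E ω)) = fc (lng ρ) (sht ρ) := by
  obtain ⟨v, a, b, c, d⟩ := ρ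
  unfold Rc.lb at h
  cases v
  · simp only [lng, sht, Bool.false_eq_true, if_false]
    rw [← Pr_HC_du h]
    exact Pr_congr fun ω _ => by simp [Rc.cr]
  · simp only [lng, sht, if_true]
    rw [← Pr_VC_du h]
    exact Pr_congr fun ω _ => by simp [Rc.cr]

/-- mixed crossings, abstract form -/
lemma two {c : ℝ} (hc : 0 < c) (O D : List Rc) (E : Finset (ℤ × ℤ))
    (hO : ∀ ρ ∈ O, ρ.lb ⊆ E ∧ c ≤ fc (lng ρ) (sht ρ))
    (hD : ∀ ρ ∈ D, (∀ e ∈ ρ.lb, ((e.1 - 1, e.2 - 1) : ℤ × ℤ) ∈ E) ∧ c ≤ fc (lng ρ) (sht ρ))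
    (hdis : ∀ e : ℤ × ℤ, (∃ ρ ∈ O, e ∈ ρ.lb) → (∃ ρ ∈ D, sh1 e ∈ ρ.lb) → False) :
    c ^ (O.length + D.length) ≤
      Pr E (fun ω => (∀ ρ ∈ O, ρ.cr ω) ∧ ∀ ρ ∈ D, ρ.cr (du E ω)) := by
  classical
  set E1 := E.filter (fun e => ∃ ρ ∈ O, e ∈ ρ.lb) with hE1
  set E2 := E.filter (fun e => ∃ ρ ∈ D, sh1 e ∈ ρ.lb) with hE2
  have h1 : E1 ⊆ E := filter_subset _ _
  have h2 : E2 ⊆ E := filter_subset _ _
  have hd : Disjoint E1 E2 := by
    rw [disjoint_left]
    intro e he he'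
    rw [hE1, mem_filter] at he
    rw [hE2, mem_filter] at he'
    exact hdis e he.2 he'.2
  have key := Pr_two_colours h1 h2 hd (univ : Finset (Fin O.length)) (univ : Finset (Fin D.length))
    (fun i => (O.get i).cr) (fun j => (D.get j).cr) (fun i _ => cr_inc _) (fun j _ => cr_inc _)
    (by
      intro i _ ω h
      refine cr_inter ?_ h
      intro e he
      rw [hE1, mem_filter]
      exact ⟨(hO _ (List.get_mem _ _)).1 he, _, List.get_mem _ _, he⟩)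
    (by
      intro j _ ω h
      refine cr_inter ?_ h
      intro e he
      rw [mem_map]
      refine ⟨(e.1 - 1, e.2 - 1), ?_, ?_⟩
      · rw [hE2, mem_filter]
        have : sh1 (e.1 - 1, e.2 - 1) = e := Prod.ext (by simp [sh1]) (by simp [sh1])
        exact ⟨(hD _ (List.get_mem _ _)).1 e he, D.get j, List.get_mem _ _, by rw [this]; exact he⟩
      · exact Prod.ext (by simp [sh1]) (by simp [sh1]))
  refine le_trans ?_ (key.trans ?_)
  · rw [pow_add]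
    have a1 : c ^ O.length ≤ ∏ i : Fin O.length, Pr E ((O.get i).cr) := by
      have : c ^ O.length = ∏ _i : Fin O.length, c := by
        rw [prod_const, card_univ, Fintype.card_fin]
      rw [this]
      apply prod_le_prod
      · intro i _; exact hc.le
      · intro i _
        have := hO _ (List.get_mem O i)
        rw [Pr_cr this.1]
        exact this.2
    have a2 : c ^ D.length ≤ ∏ j : Fin D.length, Pr E (fun ω => (D.get j).cr (du E ω)) := by
      have : c ^ D.length = ∏ _i : Fin D.length, c := by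
        rw [prod_const, card_univ, Fintype.card_fin]
      rw [this]
      apply prod_le_prod
      · intro i _; exact hc.le
      · intro i _
        have := hD _ (List.get_mem D i)
        rw [Pr_cr_du this.1]
        exact this.2
    exact mul_le_mul a1 a2 (by positivity) (le_trans (by positivity) a1)
  · apply Pr_mono
    rintro ω _ ⟨hA, hB⟩
    refine ⟨?_, ?_⟩
    · intro ρ hρ
      obtain ⟨n, rfl⟩ := List.get_of_mem hρ
      exact hA n (mem_univ _)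
    · intro ρ hρ
      obtain ⟨n, rfl⟩ := List.get_of_mem hρ
      exact hB n (mem_univ _)

lemma len_O (i : ℕ) (R u s r L y t1 : ℤ) : (allO i R u s r L y t1).length = 13 := by
  simp [allO, hookO, ringO, gateO, innO]

lemma len_D (i : ℕ) (R u s r y t1 t2 : ℤ) : (allD i R u s r y t1 t2).length = 12 := by
  simp [allD, hookD, ringD, innD]

lemma ok_O {s r L R u : ℤ} (g1 : 1 ≤ s) (g2 : 16 * s ≤ r) (g3 : r ≤ L) (g4 : R = 16 * L)
    (g5 : 1 ≤ u) (g6 : 1000 * u ≤ R) {i : ℕ} {y t1 t2 : ℤ} (hy : |y| ≤ R - 39 * u)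
    (h1 : |t1| ≤ L) (h2 : |t2| ≤ L) :
    ∀ ρ ∈ allO i R u s r L y t1, Ok s R u (-(R + 2 * u)) (R + 2 * u) ρ := by
  rw [abs_le] at hy h1 h2
  intro ρ hρ
  unfold allO at hρ
  rw [List.mem_append, List.mem_append, List.mem_map] at hρ
  rcases hρ with (⟨ρ, hρ, rfl⟩ | hρ) | hρ
  · apply Ok.rot_it
    simp only [hookO, ringO, List.mem_append, List.mem_cons, List.not_mem_nil, or_false,
      or_assoc] at hρ
    rcases hρ with rfl | rfl | rfl | rfl | rfl | rfl | rfl | rfl <;>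
    refine ⟨?_, ?_, ?_, ?_, ?_, ?_, ?_⟩ <;> simp only [lng, sht, Bool.false_eq_true, if_false,
      if_true] <;> omega
  · simp only [gateO, List.mem_cons, List.not_mem_nil, or_false, or_assoc] at hρ
    rcases hρ with rfl | rfl <;>
    refine ⟨?_, ?_, ?_, ?_, ?_, ?_, ?_⟩ <;> simp only [lng, sht, Bool.false_eq_true, if_false,
      if_true] <;> omega
  · simp only [innO, List.mem_cons, List.not_mem_nil, or_false, or_assoc] at hρ
    rcases hρ with rfl | rfl | rfl <;>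
    refine ⟨?_, ?_, ?_, ?_, ?_, ?_, ?_⟩ <;> simp only [lng, sht, Bool.false_eq_true, if_false,
      if_true] <;> omega

lemma ok_D {s r L R u : ℤ} (g1 : 1 ≤ s) (g2 : 16 * s ≤ r) (g3 : r ≤ L) (g4 : R = 16 * L)
    (g5 : 1 ≤ u) (g6 : 1000 * u ≤ R) {i : ℕ} {y t1 t2 : ℤ} (hy : |y| ≤ R - 39 * u)
    (h1 : |t1| ≤ L) (h2 : |t2| ≤ L) :
    ∀ ρ ∈ allD i R u s r y t1 t2, Ok s R u (1 - (R + 8 * u + 1)) (R + 8 * u + 1) ρ := by
  rw [abs_le] at hy h1 h2
  intro ρ hρ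
  unfold allD at hρ
  rw [List.mem_append, List.mem_append, List.mem_map] at hρ
  rcases hρ with (⟨ρ, hρ, rfl⟩ | hρ) | hρ
  · apply Ok.rotd_it
    simp only [hookD, List.mem_append, List.mem_cons, List.not_mem_nil, or_false,
      or_assoc] at hρ
    rcases hρ with rfl | rfl | rfl <;>
    refine ⟨?_, ?_, ?_, ?_, ?_, ?_, ?_⟩ <;> simp only [lng, sht, Bool.false_eq_true, if_false,
      if_true] <;> omega
  · simp only [ringD, List.mem_cons, List.not_mem_nil, or_false, or_assoc] at hρ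
    rcases hρ with rfl | rfl | rfl | rfl | rfl <;>
    refine ⟨?_, ?_, ?_, ?_, ?_, ?_, ?_⟩ <;> simp only [lng, sht, Bool.false_eq_true, if_false,
      if_true] <;> omega
  · simp only [innD, List.mem_cons, List.not_mem_nil, or_false, or_assoc] at hρ
    by_cases h : t1 < t2
    · simp only [if_pos h] at hρ
      rcases hρ with rfl | rfl | rfl | rfl <;>
      refine ⟨?_, ?_, ?_, ?_, ?_, ?_, ?_⟩ <;> simp only [lng, sht, Bool.false_eq_true, if_false,
        if_true] <;> omega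
    · simp only [if_neg h] at hρ
      rcases hρ with rfl | rfl | rfl | rfl <;>
      refine ⟨?_, ?_, ?_, ?_, ?_, ?_, ?_⟩ <;> simp only [lng, sht, Bool.false_eq_true, if_false,
        if_true] <;> omega

/-- **T4.** -/
theorem t4 : T4 := by
  intro M1 k Mh hM1 hMh
  obtain ⟨c, hc, hfc⟩ := hc_ratio (4 * (2 * Mh + 256 * (4 ^ k * 4 ^ k)))
  refine ⟨c ^ 25, by positivity, ?_⟩
  intro t s r L R u hp E U ω i y t1 t2 hi hE hy hy0 h1 h2 h12
  obtain ⟨-, -, g1, g2, g3, g4, g5, g6, -⟩ := Par.lin hM1 hMh hp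
  obtain ⟨-, p2, p3, p4, p5, -, -, p8⟩ := hp
  have hlow : ∀ w h : ℤ, 0 ≤ w → (u ≤ h ∨ s ≤ h) → w ≤ 4 * R → c ≤ fc w h := by
    intro w h hw hh hwR
    refine hfc w h hw (by omega) (hwR.trans ?_)
    push_cast
    have hk : (0 : ℤ) ≤ 4 ^ k * 4 ^ k := by positivity
    have hm : (0 : ℤ) ≤ Mh := by positivity
    rcases hh with hh | hh
    · have e1 : 2 * (Mh : ℤ) * u ≤ 2 * Mh * h := mul_le_mul_of_nonneg_left hh (by positivity)
      have e2 : (0 : ℤ) ≤ 256 * (4 ^ k * 4 ^ k) * h := by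
        have : (0 : ℤ) ≤ h := by omega
        positivity
      nlinarith
    · have e1 : (256 : ℤ) * (4 ^ k * 4 ^ k) * s ≤ 256 * (4 ^ k * 4 ^ k) * h :=
        mul_le_mul_of_nonneg_left hh (by positivity)
      have e2 : (0 : ℤ) ≤ 2 * Mh * h := by
        have : (0 : ℤ) ≤ h := by omega
        positivity
      have e3 : R = 256 * (4 ^ k * 4 ^ k) * s := by rw [p5, p4, p3]; ring
      rw [e3]
      nlinarith
  have key := two hc (allO i R u s r L y t1) (allD i R u s r y t1 t2) E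
    (by
      intro ρ hρ
      have := ok_O g1 g2 g3 g4 g5 g6 (t2 := t2) hy h1 h2 ρ hρ
      obtain ⟨o1, o2, o3, o4, o5, o6, o7⟩ := this
      refine ⟨?_, hlow _ _ o5 o7 o6⟩
      refine subset_trans ?_ hE
      unfold Rc.lb H75.TwoArm.BB
      exact Bx_sub (by omega) (by omega) (by omega) (by omega))
    (by
      intro ρ hρ
      have := ok_D g1 g2 g3 g4 g5 g6 hy h1 h2 ρ hρ
      obtain ⟨o1, o2, o3, o4, o5, o6, o7⟩ := this
      refine ⟨?_, hlow _ _ o5 o7 o6⟩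
      intro e he
      apply hE
      unfold Rc.lb at he
      rw [mem_Bx] at he
      rw [H75.TwoArm.BB, mem_Bx]
      simp only
      omega)
    (fun e hO hD => dis_lin g1 g2 g3 g4 g5 g6 hi hy hy0 h1 h2 h12 hO hD)
  rw [len_O, len_D] at key
  refine key.trans (Pr_mono ?_)
  rintro ω' _ ⟨hA, hB⟩
  refine ⟨?_, ?_⟩
  · intro ρ hρ
    refine cr_inc ρ _ _ ?_ (hA ρ hρ)
    intro e he
    rw [mem_union, mem_mix]
    by_cases h : e ∈ U
    · exact Or.inr h
    · exact Or.inl (Or.inr ⟨he, h⟩)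
  · intro ρ hρ
    refine cr_inc ρ _ _ ?_ (hB ρ hρ)
    unfold du
    apply map_subset_map.2
    intro e he
    rw [mem_sdiff] at he ⊢
    refine ⟨he.1, ?_⟩
    rw [mem_sdiff, mem_mix]
    rintro ⟨h | h, h'⟩
    · exact h' h.2
    · exact he.2 h.1

end Pool.Agent.H47.ZF
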